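import Pool.Agent.SGL.StmtsU

/-!
# Row MSI of squad SGL: super-increasing heights
-/

set_option autoImplicit false

noncomputable section

namespace Pool.Agent.SGL.H89

open Pool.Agent.SGE Pool.Agent.SGP Pool.Agent.SGY Pool.Agent.SGD Filter

/-- the smallest gap -/
theorem gap (n : ℕ) (x : ℕ → ℝ) : ∃ δ : ℝ, 0 < δ ∧
    ∀ i j, i ≤ n → j ≤ n → x i < x j → δ ≤ x j - x i := by
  classical
  set P := ((Finset.range (n + 1)) ×ˢ (Finset.range (n + 1))).filter fun p => x p.1 < x p.2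
    with hP
  rcases P.eq_empty_or_nonempty with he | hne
  · refine ⟨1, one_pos, fun i j hi hj hij => ?_⟩
    have h1 : (i, j) ∈ P := by
      rw [hP, Finset.mem_filter, Finset.mem_product, Finset.mem_range, Finset.mem_range]
      exact ⟨⟨by omega, by omega⟩, hij⟩
    rw [he] at h1
    exact absurd h1 (Finset.notMem_empty _)
  · obtain ⟨p, hp, hmin⟩ := P.exists_min_image (fun p => x p.2 - x p.1) hne
    have hp2 : x p.1 < x p.2 := (Finset.mem_filter.1 hp).2
    refine ⟨x p.2 - x p.1, sub_pos.2 hp2, fun i j hi hj hij => ?_⟩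
    have h1 : (i, j) ∈ P := by
      rw [hP, Finset.mem_filter, Finset.mem_product, Finset.mem_range, Finset.mem_range]
      exact ⟨⟨by omega, by omega⟩, hij⟩
    exact hmin (i, j) h1

/-- the largest distance -/
theorem diam (n : ℕ) (x : ℕ → ℝ) : ∃ Δ : ℝ, 0 ≤ Δ ∧
    ∀ i j, i ≤ n → j ≤ n → |x i - x j| ≤ Δ := by
  refine ⟨2 * ∑ i ∈ Finset.range (n + 1), |x i|, by positivity, fun i j hi hj => ?_⟩
  have h1 : |x i| ≤ ∑ i ∈ Finset.range (n + 1), |x i| :=
    Finset.single_le_sum (f := fun i => |x i|) (fun i _ => abs_nonneg _)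
      (Finset.mem_range.2 (by omega))
  have h2 : |x j| ≤ ∑ i ∈ Finset.range (n + 1), |x i| :=
    Finset.single_le_sum (f := fun i => |x i|) (fun i _ => abs_nonneg _)
      (Finset.mem_range.2 (by omega))
  have h3 := abs_sub (x i) (x j)
  linarith

/-- MSI. -/
theorem msi : MsiStmt := by
  intro n x _
  obtain ⟨δ, hδ, hgap⟩ := gap n x
  obtain ⟨Δ, hΔ, hdiam⟩ := diam n x
  refine ⟨2 + Δ / δ, by have := div_nonneg hΔ hδ.le; linarith, ?_⟩
  intro i j l hi hj hl hij
  set M : ℝ := 2 + Δ / δ with hM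
  have hM1 : 1 ≤ M := by have := div_nonneg hΔ hδ.le; linarith
  have hM0 : 0 < M := by linarith
  have hMδ : Δ < δ * (M - 1) := by
    have : δ * (M - 1) = δ + Δ := by rw [hM]; field_simp; ring
    linarith
  set m : ℝ := M ^ (max i j) with hm
  have hm0 : 0 < m := pow_pos hM0 _
  have hi1 : M ^ i ≤ m := pow_le_pow_right₀ hM1 (le_max_left _ _)
  have hj1 : M ^ j ≤ m := pow_le_pow_right₀ hM1 (le_max_right _ _)
  have hi0 : 0 < M ^ i := pow_pos hM0 _
  have hj0 : 0 < M ^ j := pow_pos hM0 _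
  have hl1 : m * M ≤ M ^ l := by
    rw [hm, ← pow_succ]
    exact pow_le_pow_right₀ hM1 (by omega)
  have h1 : δ ≤ x j - x i := hgap i j (by omega) (by omega) hij
  have h2 : |x l - x i| ≤ Δ := hdiam l i hl (by omega)
  have h3 : |M ^ j - M ^ i| ≤ m := by
    rw [abs_le]
    constructor <;> linarith
  have h4 : |(M ^ j - M ^ i) * (x l - x i)| ≤ m * Δ := by
    rw [abs_mul]
    exact mul_le_mul h3 h2 (abs_nonneg _) hm0.le
  have h5 : m * (M - 1) ≤ M ^ l - M ^ i := by nlinarith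
  have h6 : δ * (m * (M - 1)) ≤ (x j - x i) * (M ^ l - M ^ i) :=
    mul_le_mul h1 h5 (mul_nonneg hm0.le (by linarith)) (by linarith)
  have h7 : m * Δ < m * (δ * (M - 1)) := mul_lt_mul_of_pos_left hMδ hm0
  have h8 := le_abs_self ((M ^ j - M ^ i) * (x l - x i))
  show 0 < (x j - x i) * (M ^ l - M ^ i) - (M ^ j - M ^ i) * (x l - x i)
  nlinarith

end Pool.Agent.SGL.H89
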